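import Pool.Agent.H174.GP.StD
import Pool.Agent.H174.GP.StA
import Pool.Agent.H174.GP.StP

/-!
# GP174, Xg: difference and minimum of two geometric sequences
-/

set_option autoImplicit false

open MeasureTheory ProbabilityTheory Finset Filter Topology

namespace Pool.Agent.H947.GP174

open Pool.Agent.H174.GP

/-- the extension of a finite sequence -/
def ea {N : ℕ} (a : Fin N → ℤ × ℕ) (j : ℕ) : ℤ × ℕ :=
  if h : 1 ≤ j ∧ j ≤ N then a ⟨j - 1, by omega⟩ else (0, 0)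

/-- the restriction to the coordinates `1..N` -/
def res (N : ℕ) (q : (ℕ → ℤ) × (ℕ → ℕ)) (i : Fin N) : ℤ × ℕ := (q.1 (i + 1), q.2 (i + 1))

theorem ea_res {N : ℕ} (q : (ℕ → ℤ) × (ℕ → ℕ)) {j : ℕ} (hj : j ∈ Finset.Icc 1 N) :
    ea (res N q) j = (q.1 j, q.2 j) := by
  have h := Finset.mem_Icc.1 hj
  unfold ea res
  rw [dif_pos h]
  have h1 : j - 1 + 1 = j := by omega
  simp only [h1]

theorem ea_succ {N : ℕ} (a : Fin N → ℤ × ℕ) (i : Fin N) : ea a ((i : ℕ) + 1) = a i := by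
  unfold ea
  have h : 1 ≤ (i : ℕ) + 1 ∧ (i : ℕ) + 1 ≤ N := ⟨by omega, by have := i.2; omega⟩
  rw [dif_pos h]
  rfl

/-- sets depending on finitely many coordinates of discrete sequences -/
theorem eq_of_cyl {Ω : Type} [MeasurableSpace Ω] {N : ℕ} {F : Set ((ℕ → ℤ) × (ℕ → ℕ))}
    (hF : DepZ N F) (T1 T2 : Ω → (ℕ → ℤ) × (ℕ → ℕ))
    (hm1 : ∀ j, Measurable fun p => (T1 p).1 j) (hm1' : ∀ j, Measurable fun p => (T1 p).2 j)
    (hm2 : ∀ j, Measurable fun p => (T2 p).1 j) (hm2' : ∀ j, Measurable fun p => (T2 p).2 j)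
    (μ : Measure Ω) [IsFiniteMeasure μ]
    (h : ∀ (x : ℕ → ℤ) (γ : ℕ → ℕ),
      μ.real {p | ∀ j ∈ Finset.Icc 1 N, (T1 p).1 j = x j ∧ (T1 p).2 j = γ j} =
        μ.real {p | ∀ j ∈ Finset.Icc 1 N, (T2 p).1 j = x j ∧ (T2 p).2 j = γ j}) :
    μ.real {p | T1 p ∈ F} = μ.real {p | T2 p ∈ F} := by
  have hmeas : ∀ T : Ω → (ℕ → ℤ) × (ℕ → ℕ), (∀ j, Measurable fun p => (T p).1 j) →
      (∀ j, Measurable fun p => (T p).2 j) → Measurable (fun p => res N (T p)) := by
    intro T h1 h2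
    rw [measurable_pi_iff]
    intro i
    exact (h1 _).prodMk (h2 _)
  have hpre : ∀ (T : Ω → (ℕ → ℤ) × (ℕ → ℕ)) (a : Fin N → ℤ × ℕ),
      (fun p => res N (T p)) ⁻¹' {a} =
        {p | ∀ j ∈ Finset.Icc 1 N, (T p).1 j = (ea a j).1 ∧ (T p).2 j = (ea a j).2} := by
    intro T a
    ext p
    constructor
    · intro hp j hj
      have h1 : res N (T p) = a := hp
      rw [← h1, ea_res _ hj]
      exact ⟨rfl, rfl⟩
    · intro hp
      change res N (T p) = a
      funext i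
      have h1 := hp ((i : ℕ) + 1) (Finset.mem_Icc.2 ⟨by omega, by have := i.2; omega⟩)
      rw [ea_succ] at h1
      exact Prod.ext h1.1 h1.2
  have hGset : ∀ T : Ω → (ℕ → ℤ) × (ℕ → ℕ), {p | T p ∈ F} = (fun p => res N (T p)) ⁻¹'
      {a | ((fun j => (ea a j).1, fun j => (ea a j).2) : (ℕ → ℤ) × (ℕ → ℕ)) ∈ F} := by
    intro T
    ext p
    constructor
    · intro hp
      refine hF _ _ (fun j hj => ?_) hp
      change (T p).1 j = (ea (res N (T p)) j).1 ∧ (T p).2 j = (ea (res N (T p)) j).2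
      rw [ea_res _ hj]
      exact ⟨rfl, rfl⟩
    · intro hp
      refine hF _ _ (fun j hj => ?_) hp
      simp only [ea_res _ hj, and_self]
  have hmap : μ.map (fun p => res N (T1 p)) = μ.map (fun p => res N (T2 p)) := by
    refine Measure.ext_of_singleton fun a => ?_
    rw [Measure.map_apply (hmeas T1 hm1 hm1') (measurableSet_singleton a),
      Measure.map_apply (hmeas T2 hm2 hm2') (measurableSet_singleton a), hpre, hpre]
    have h1 := h (fun j => (ea a j).1) (fun j => (ea a j).2)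
    rw [measureReal_def, measureReal_def] at h1
    exact (ENNReal.toReal_eq_toReal_iff' (measure_ne_top _ _) (measure_ne_top _ _)).1 h1
  have hG : MeasurableSet {a : Fin N → ℤ × ℕ |
      ((fun j => (ea a j).1, fun j => (ea a j).2) : (ℕ → ℤ) × (ℕ → ℕ)) ∈ F} :=
    (Set.to_countable _).measurableSet
  rw [measureReal_def, measureReal_def, hGset T1, hGset T2,
    ← Measure.map_apply (hmeas T1 hm1 hm1') hG, ← Measure.map_apply (hmeas T2 hm2 hm2') hG, hmap]

/-- the law of `⌊|x| / a⌋` -/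
theorem law_gs (h2 : S_L3) {a : ℝ} (ha : 0 < a) (k : ℕ) :
    lap.real {x | ⌊|x| / a⌋₊ = k} = (1 - Real.exp (-a)) * Real.exp (-(a * k)) := by
  have h1 : {x : ℝ | ⌊|x| / a⌋₊ = k} = {x | a * k ≤ |x|} \ {x | a * (k + 1) ≤ |x|} := by
    ext x
    have h3 : ⌊|x| / a⌋₊ = k ↔ (k : ℝ) ≤ |x| / a ∧ |x| / a < k + 1 :=
      Nat.floor_eq_iff (div_nonneg (abs_nonneg _) ha.le)
    rw [Set.mem_sdiff]
    change ⌊|x| / a⌋₊ = k ↔ a * k ≤ |x| ∧ ¬ (a * (k + 1) ≤ |x|)
    rw [h3, le_div_iff₀ ha, div_lt_iff₀ ha, not_le, mul_comm a, mul_comm a]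
  have hk : (0 : ℝ) ≤ a * k := by positivity
  have hk1 : (0 : ℝ) ≤ a * (k + 1) := by positivity
  have hsub : {x : ℝ | a * (k + 1) ≤ |x|} ⊆ {x | a * k ≤ |x|} := by
    intro x hx
    have h4 : a * (k + 1) ≤ |x| := hx
    change a * k ≤ |x|
    nlinarith
  have hms : MeasurableSet {x : ℝ | a * (k + 1) ≤ |x|} :=
    measurableSet_le measurable_const measurable_id.abs
  rw [h1, measureReal_sdiff hsub hms, h2.2.1 _ hk, h2.2.1 _ hk1]
  have h5 : -(a * ((k : ℝ) + 1)) = -a + -(a * k) := by ring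
  rw [h5, Real.exp_add]
  ring

/-- cylinders of the geometric variables -/
theorem cyl_gs (h2 : S_L3) (N : ℕ) {σ : ℝ} (hσ : 0 < σ) (k : ℕ → ℕ) :
    PP.real {ω | ∀ j ∈ Finset.Icc 1 N, gs σ ω j = k j} =
      ∏ j ∈ Finset.Icc 1 N, ((1 - Real.exp (-(σ * j))) * Real.exp (-(σ * j * k j))) := by
  have h1 : {ω : ℕ → ℝ | ∀ j ∈ Finset.Icc 1 N, gs σ ω j = k j} =
      (↑(Finset.Icc 1 N) : Set ℕ).pi (fun j => {x : ℝ | ⌊|x| / (σ * j)⌋₊ = k j}) := by
    ext ω
    exact Iff.rfl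
  have hm : ∀ j ∈ Finset.Icc 1 N, MeasurableSet {x : ℝ | ⌊|x| / (σ * j)⌋₊ = k j} := by
    intro j _
    exact (Nat.measurable_floor.comp (measurable_id.abs.div_const _)) (measurableSet_singleton _)
  rw [h1, measureReal_def]
  unfold PP
  rw [Measure.infinitePi_pi _ hm, ENNReal.toReal_prod]
  refine Finset.prod_congr rfl fun j hj => ?_
  have hj1 : (0 : ℝ) < σ * j := mul_pos hσ (by
    have := (Finset.mem_Icc.1 hj).1
    exact_mod_cast this)
  rw [← measureReal_def]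
  exact law_gs h2 hj1 (k j)

theorem measurable_gs (σ : ℝ) (j : ℕ) : Measurable fun ω : ℕ → ℝ => gs σ ω j :=
  Nat.measurable_floor.comp ((measurable_pi_apply j).abs.div_const _)

theorem measurable_Tq (a : ℝ) : Measurable (Tq a) := by
  unfold Tq
  refine Measurable.ite (measurableSet_le measurable_const measurable_id) ?_ ?_
  · exact Int.measurable_floor.comp ((measurable_id.div_const _).add_const _)
  · exact (Int.measurable_floor.comp ((measurable_id.neg.div_const _).add_const _)).neg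

theorem measurable_geo (σ : ℝ) (j : ℕ) : Measurable fun ω : ℕ → ℝ => geo σ ω j :=
  (measurable_Tq _).comp (measurable_pi_apply j)

/-- difference and minimum -/
theorem diff_min (g g' γ : ℕ) (x : ℤ) :
    ((g : ℤ) - (g' : ℤ) = x ∧ min g g' = γ) ↔ (g = γ + x.toNat ∧ g' = γ + (-x).toNat) := by
  omega

theorem gp_xg (h1 : S_geolaw) (h2 : S_L3) : Pool.Agent.H174.GP.S_Xg := by
  intro N σ F hσ hF
  refine eq_of_cyl hF
    (fun p : (ℕ → ℝ) × (ℕ → ℝ) => ((fun j => (gs σ p.1 j : ℤ) - (gs σ p.2 j : ℤ)),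
      (fun j => min (gs σ p.1 j) (gs σ p.2 j))))
    (fun p : (ℕ → ℝ) × (ℕ → ℝ) => ((fun j => geo σ p.1 j), (fun j => gs (2 * σ) p.2 j)))
    ?_ ?_ ?_ ?_ (PP.prod PP) ?_
  · intro j
    have ha : Measurable fun p : (ℕ → ℝ) × (ℕ → ℝ) => (gs σ p.1 j : ℤ) :=
      (measurable_from_nat (f := fun n : ℕ => (n : ℤ))).comp ((measurable_gs σ j).comp measurable_fst)
    have hb : Measurable fun p : (ℕ → ℝ) × (ℕ → ℝ) => (gs σ p.2 j : ℤ) :=
      (measurable_from_nat (f := fun n : ℕ => (n : ℤ))).comp ((measurable_gs σ j).comp measurable_snd)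
    exact ha.sub hb
  · intro j
    exact ((measurable_gs σ j).comp measurable_fst).min ((measurable_gs σ j).comp measurable_snd)
  · intro j
    exact (measurable_geo σ j).comp measurable_fst
  · intro j
    exact (measurable_gs (2 * σ) j).comp measurable_snd
  · intro x γ
    have e1 : {p : (ℕ → ℝ) × (ℕ → ℝ) | ∀ j ∈ Finset.Icc 1 N,
        (gs σ p.1 j : ℤ) - (gs σ p.2 j : ℤ) = x j ∧ min (gs σ p.1 j) (gs σ p.2 j) = γ j} =
        {ω | ∀ j ∈ Finset.Icc 1 N, gs σ ω j = γ j + (x j).toNat} ×ˢ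
          {ω | ∀ j ∈ Finset.Icc 1 N, gs σ ω j = γ j + (-(x j)).toNat} := by
      ext p
      constructor
      · intro hp
        exact ⟨fun j hj => ((diff_min _ _ _ _).1 (hp j hj)).1,
          fun j hj => ((diff_min _ _ _ _).1 (hp j hj)).2⟩
      · intro hp j hj
        exact (diff_min _ _ _ _).2 ⟨hp.1 j hj, hp.2 j hj⟩
    have e2 : {p : (ℕ → ℝ) × (ℕ → ℝ) | ∀ j ∈ Finset.Icc 1 N,
        geo σ p.1 j = x j ∧ gs (2 * σ) p.2 j = γ j} =
        {ω | ∀ j ∈ Finset.Icc 1 N, geo σ ω j = x j} ×ˢ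
          {ω | ∀ j ∈ Finset.Icc 1 N, gs (2 * σ) ω j = γ j} := by
      ext p
      constructor
      · intro hp
        exact ⟨fun j hj => (hp j hj).1, fun j hj => (hp j hj).2⟩
      · intro hp j hj
        exact ⟨hp.1 j hj, hp.2 j hj⟩
    change (PP.prod PP).real {p : (ℕ → ℝ) × (ℕ → ℝ) | ∀ j ∈ Finset.Icc 1 N,
        (gs σ p.1 j : ℤ) - (gs σ p.2 j : ℤ) = x j ∧ min (gs σ p.1 j) (gs σ p.2 j) = γ j} =
      (PP.prod PP).real {p : (ℕ → ℝ) × (ℕ → ℝ) | ∀ j ∈ Finset.Icc 1 N,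
        geo σ p.1 j = x j ∧ gs (2 * σ) p.2 j = γ j}
    rw [e1, e2, measureReal_prod_prod, measureReal_prod_prod, cyl_gs h2 N hσ, cyl_gs h2 N hσ,
      cyl_gs h2 N (by linarith : (0 : ℝ) < 2 * σ), h1 N σ x hσ, ← Finset.prod_mul_distrib,
      ← Finset.prod_mul_distrib]
    refine Finset.prod_congr rfl fun j _ => ?_
    have hE : Real.exp (-(2 * σ * j)) = Real.exp (-(σ * j)) ^ 2 := by
      rw [← Real.exp_nat_mul]
      congr 1
      push_cast
      ring
    have hab : (((x j).toNat : ℕ) : ℝ) + (((-(x j)).toNat : ℕ) : ℝ) = |((x j : ℤ) : ℝ)| := by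
      have h3 : (((x j).toNat : ℕ) : ℤ) + (((-(x j)).toNat : ℕ) : ℤ) = |x j| := by
        rcases le_total 0 (x j) with h | h
        · rw [abs_of_nonneg h]; omega
        · rw [abs_of_nonpos h]; omega
      exact_mod_cast h3
    have hprod : Real.exp (-(σ * j * ((γ j + (x j).toNat : ℕ) : ℝ))) *
        Real.exp (-(σ * j * ((γ j + (-(x j)).toNat : ℕ) : ℝ))) =
        Real.exp (-(σ * j * |((x j : ℤ) : ℝ)|)) * Real.exp (-(2 * σ * j * (γ j : ℝ))) := by
      rw [← Real.exp_add, ← Real.exp_add, ← hab]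
      congr 1
      push_cast
      ring
    have hpos : (0 : ℝ) < 1 + Real.exp (-(σ * j)) := by positivity
    rw [hE]
    have hab' : |((x j : ℤ) : ℝ)| = ((|x j| : ℤ) : ℝ) := by push_cast; rfl
    rw [hab'] at hprod
    have e3 : (1 - Real.exp (-(σ * j))) * Real.exp (-(σ * j * ((γ j + (x j).toNat : ℕ) : ℝ))) *
        ((1 - Real.exp (-(σ * j))) * Real.exp (-(σ * j * ((γ j + (-(x j)).toNat : ℕ) : ℝ)))) =
        (1 - Real.exp (-(σ * j))) ^ 2 * (Real.exp (-(σ * j * ((γ j + (x j).toNat : ℕ) : ℝ))) *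
        Real.exp (-(σ * j * ((γ j + (-(x j)).toNat : ℕ) : ℝ)))) := by ring
    rw [e3, hprod]
    field_simp
    ring

end Pool.Agent.H947.GP174
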